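import Pool.Agent.K1H23.SR.Poly1
import Pool.Agent.Helper610.Bohr.Basic

set_option autoImplicit false

/-! Power series in several variables which converge absolutely on the polydisc. -/

namespace Pool.Agent.K1H23.SR
open Finset MvPowerSeries Pool.Agent.H650R3.Cyc
open Pool.Agent.Helper610.Bohr (PS)

variable {d : ℕ}

/-- absolute convergence at `z` -/
def AbsAt (z : Fin d → ℂ) (f : MvPowerSeries (Fin d) ℂ) : Prop :=
  Summable fun α : Fin d →₀ ℕ => ‖coeff α f * ev z α‖

/-- the value at `z` -/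
noncomputable def val (z : Fin d → ℂ) (f : MvPowerSeries (Fin d) ℂ) : ℂ :=
  ∑' α : Fin d →₀ ℕ, coeff α f * ev z α

lemma AbsAt.hasSum {z : Fin d → ℂ} {f : MvPowerSeries (Fin d) ℂ} (h : AbsAt z f) :
    HasSum (fun α : Fin d →₀ ℕ => coeff α f * ev z α) (val z f) :=
  (Summable.of_norm h).hasSum

lemma mono_mul (z : Fin d → ℂ) (f : MvPowerSeries (Fin d) ℂ) (h : AbsAt z f) (β : Fin d →₀ ℕ)
    (c : ℂ) : AbsAt z (monomial β c * f) ∧ val z (monomial β c * f) = (c * ev z β) * val z f := by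
  classical
  have hinj : Function.Injective fun γ : Fin d →₀ ℕ => γ + β := add_left_injective β
  have hzero : ∀ α, α ∉ Set.range (fun γ : Fin d →₀ ℕ => γ + β) →
      coeff α (monomial β c * f) * ev z α = 0 := by
    intro α hα
    rw [coeff_monomial_mul, if_neg, zero_mul]
    intro h
    exact hα ⟨α - β, tsub_add_cancel_of_le h⟩
  have hcomp : ∀ γ, coeff (γ + β) (monomial β c * f) * ev z (γ + β) =
      (c * ev z β) * (coeff γ f * ev z γ) := by
    intro γ
    rw [coeff_monomial_mul, if_pos (le_add_self), add_tsub_cancel_right, ev_add]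
    ring
  constructor
  · have h1 : Summable fun γ : Fin d →₀ ℕ =>
        ‖coeff (γ + β) (monomial β c * f) * ev z (γ + β)‖ := by
      simp only [hcomp]
      simp only [norm_mul (c * ev z β)]
      exact Summable.mul_left _ h
    refine (hinj.summable_iff (f := fun α => ‖coeff α (monomial β c * f) * ev z α‖) ?_).mp h1
    intro α hα
    rw [hzero α hα, norm_zero]
  · have h1 : HasSum (fun γ : Fin d →₀ ℕ => coeff (γ + β) (monomial β c * f) * ev z (γ + β))
        ((c * ev z β) * val z f) := by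
      simp only [hcomp]
      exact h.hasSum.mul_left _
    exact ((hinj.hasSum_iff hzero).mp h1).tsum_eq

lemma AbsAt.add {z : Fin d → ℂ} {f g : MvPowerSeries (Fin d) ℂ} (hf : AbsAt z f)
    (hg : AbsAt z g) : AbsAt z (f + g) ∧ val z (f + g) = val z f + val z g := by
  constructor
  · refine Summable.of_nonneg_of_le (fun _ => norm_nonneg _) (fun α => ?_) (Summable.add hf hg)
    rw [map_add, add_mul]
    exact norm_add_le _ _
  · have h := hf.hasSum.add hg.hasSum
    have e : (fun α : Fin d →₀ ℕ => coeff α f * ev z α + coeff α g * ev z α) =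
        fun α => coeff α (f + g) * ev z α := by
      funext α
      rw [map_add, add_mul]
    rw [e] at h
    exact h.tsum_eq

lemma poly_mul (z : Fin d → ℂ) (R : MvPolynomial (Fin d) ℂ) (f : MvPowerSeries (Fin d) ℂ)
    (h : AbsAt z f) : AbsAt z ((R : MvPowerSeries (Fin d) ℂ) * f) ∧
      val z ((R : MvPowerSeries (Fin d) ℂ) * f) = MvPolynomial.eval z R * val z f := by
  induction R using MvPolynomial.induction_on' with
  | monomial u a =>
    rw [MvPolynomial.coe_monomial]
    obtain ⟨h1, h2⟩ := mono_mul z f h u a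
    refine ⟨h1, ?_⟩
    rw [h2, MvPolynomial.eval_monomial, Finsupp.prod_fintype _ _ (fun _ => pow_zero _)]
    rfl
  | add p q hp hq =>
    rw [MvPolynomial.coe_add, add_mul, map_add, add_mul]
    obtain ⟨h1, h2⟩ := hp.1.add hq.1
    refine ⟨h1, ?_⟩
    rw [h2, hp.2, hq.2]

lemma exists_rad (z : Fin d → ℂ) (hz : ∀ j, ‖z j‖ < 1) :
    ∃ r : ℝ, 0 < r ∧ r < 1 ∧ ∀ j, ‖z j‖ ≤ r := by
  classical
  by_cases hd : (univ : Finset (Fin d)).Nonempty
  · refine ⟨max (univ.sup' hd fun j => ‖z j‖) (1 / 2), ?_, ?_, fun j => ?_⟩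
    · exact lt_of_lt_of_le (by norm_num) (le_max_right _ _)
    · rw [max_lt_iff]
      refine ⟨?_, by norm_num⟩
      rw [Finset.sup'_lt_iff]
      exact fun j _ => hz j
    · exact (Finset.le_sup' (fun j => ‖z j‖) (mem_univ j)).trans (le_max_left _ _)
  · refine ⟨1 / 2, by norm_num, by norm_num, fun j => ?_⟩
    exact absurd ⟨j, mem_univ j⟩ hd

lemma ev_norm_le {z : Fin d → ℂ} {r : ℝ} (hz : ∀ j, ‖z j‖ ≤ r) (α : Fin d →₀ ℕ) :
    ‖ev z α‖ ≤ r ^ (∑ j, α j) := by
  rw [ev, norm_prod, ← Finset.prod_pow_eq_pow_sum]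
  apply Finset.prod_le_prod (fun _ _ => norm_nonneg _)
  intro j _
  rw [norm_pow]
  exact pow_le_pow_left₀ (norm_nonneg _) (hz j) _

/-- the inverse of a zero free polynomial converges absolutely on the polydisc -/
lemma absAt_inv {P : MvPolynomial (Fin d) ℂ} (hP : ZeroFree P) (u : MvPowerSeries (Fin d) ℂ)
    (hu : u * (P : MvPowerSeries (Fin d) ℂ) = 1) (z : Fin d → ℂ) (hz : ∀ j, ‖z j‖ < 1) :
    AbsAt z u := by
  obtain ⟨r, hr0, hr1, hr⟩ := exists_rad z hz
  set p0 := ‖constantCoeff (P : MvPowerSeries (Fin d) ℂ)‖ with hp0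
  have h1 : Summable fun α : Fin d →₀ ℕ => ‖coeff α u‖ ^ 2 * r ^ (∑ j, α j) := by
    have hs := (summ (2 * P.totalDegree) r hr0 hr1).mul_right ((p0 ^ 2)⁻¹)
    refine (graded (B := ∑' n : ℕ, ((n:ℝ) + 1) ^ (2 * P.totalDegree) * r ^ n * (p0 ^ 2)⁻¹)
      (fun α => by positivity) (fun M => ?_)).1
    refine le_trans (Finset.sum_le_sum fun n _ => ?_)
      (hs.sum_le_tsum (range M) fun n _ => by positivity)
    have e : ∑ α ∈ fa d n, ‖coeff α u‖ ^ 2 * r ^ (∑ j, α j) =
        (∑ α ∈ fa d n, ‖coeff α u‖ ^ 2) * r ^ n := by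
      rw [Finset.sum_mul]
      apply Finset.sum_congr rfl
      intro α hα
      rw [mem_fa.mp hα]
    rw [e]
    have h2 := mul_le_mul_of_nonneg_right (inv_bound hP u hu n) (pow_nonneg hr0.le n)
    refine h2.trans (le_of_eq ?_)
    rw [div_pow, ← pow_mul, mul_comm P.totalDegree 2]
    ring
  have h2 : Summable fun α : Fin d →₀ ℕ => r ^ (∑ j, α j) := by
    refine summable_of_sum_le (c := ∏ _j : Fin d, ∑' k : ℕ, r ^ k) (fun α => by positivity) ?_
    intro s
    have h3 := box_sum (d := d) (fun _ k => r ^ k) (fun _ _ => by positivity)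
      (fun _ => summable_geometric_of_lt_one hr0.le hr1) s
    refine le_trans (le_of_eq ?_) h3
    apply Finset.sum_congr rfl
    intro α _
    rw [Finset.prod_pow_eq_pow_sum]
  refine Summable.of_nonneg_of_le (fun _ => norm_nonneg _) (fun α => ?_) (h1.add h2)
  rw [norm_mul]
  have h3 := ev_norm_le hr α
  have h4 : 0 ≤ r ^ (∑ j, α j) := by positivity
  have h5 := norm_nonneg (coeff α u)
  calc ‖coeff α u‖ * ‖ev z α‖ ≤ ‖coeff α u‖ * r ^ (∑ j, α j) := by gcongr
    _ ≤ (‖coeff α u‖ ^ 2 + 1) * r ^ (∑ j, α j) := by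
        apply mul_le_mul_of_nonneg_right _ h4
        nlinarith [sq_nonneg (‖coeff α u‖ - 1)]
    _ = _ := by ring

/-- sums over fibres -/
lemma fib {ι : Type*} (F : ι → ℂ) (k : ι → ℕ) (hF : Summable F) :
    HasSum (fun m => ∑' i, if k i = m then F i else 0) (∑' i, F i) := by
  have h := HasSum.tsum_fiberwise hF.hasSum k
  refine h.congr_fun ?_
  intro m
  rw [tsum_subtype (k ⁻¹' {m}) F]
  congr 1
  funext i
  by_cases h : k i = m
  · rw [if_pos h, Set.indicator_of_mem]
    exact h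
  · rw [if_neg h, Set.indicator_of_notMem]
    exact h

/-- the coefficient of `w ^ m` of `f` with `w` in the place of `z_j` -/
noncomputable def Phi (j : Fin d) (m : ℕ) (z : Fin d → ℂ) (f : MvPowerSeries (Fin d) ℂ) : ℂ :=
  ∑' α : Fin d →₀ ℕ, if α j = m then coeff α f * ∏ l ∈ univ.erase j, z l ^ α l else 0

lemma ev_update (z : Fin d → ℂ) (j : Fin d) (w : ℂ) (α : Fin d →₀ ℕ) :
    ev (Function.update z j w) α = (∏ l ∈ univ.erase j, z l ^ α l) * w ^ α j := by
  rw [ev, ← Finset.prod_erase_mul univ _ (mem_univ j), Function.update_self]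
  congr 1
  apply Finset.prod_congr rfl
  intro l hl
  rw [Function.update_of_ne (Finset.ne_of_mem_erase hl)]

lemma update_norm {z : Fin d → ℂ} (hz : ∀ j, ‖z j‖ < 1) (j : Fin d) {w : ℂ} (hw : ‖w‖ < 1) :
    ∀ l, ‖Function.update z j w l‖ < 1 := by
  intro l
  by_cases h : l = j
  · subst h
    rw [Function.update_self]
    exact hw
  · rw [Function.update_of_ne h]
    exact hz l

lemma ps_w {f : MvPowerSeries (Fin d) ℂ} (hf : ∀ z : Fin d → ℂ, (∀ j, ‖z j‖ < 1) → AbsAt z f)
    (j : Fin d) (z : Fin d → ℂ) (hz : ∀ j, ‖z j‖ < 1) :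
    PS (fun w => val (Function.update z j w) f) (fun m => Phi j m z f) := by
  intro w hw
  have h1 := hf _ (update_norm hz j hw)
  have h2 := fib _ (fun α : Fin d →₀ ℕ => α j) (Summable.of_norm h1)
  refine h2.congr_fun ?_
  intro m
  change Phi j m z f * w ^ m = _
  rw [Phi, ← tsum_mul_right]
  congr 1
  funext α
  by_cases h : α j = m
  · rw [if_pos h, if_pos h, ev_update, h]
    ring
  · rw [if_neg h, if_neg h, zero_mul]

/-- coefficients of the slices of `Phi` -/
noncomputable def pc (j : Fin d) (m : ℕ) (ζ : Fin d → ℂ) (f : MvPowerSeries (Fin d) ℂ) (n : ℕ) : ℂ :=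
  ∑ α ∈ fa d (n + m), if α j = m then coeff α f * ∏ l ∈ univ.erase j, ζ l ^ α l else 0

lemma ps_l {f : MvPowerSeries (Fin d) ℂ} (hf : ∀ z : Fin d → ℂ, (∀ j, ‖z j‖ < 1) → AbsAt z f)
    (j : Fin d) (m : ℕ) (ζ : Fin d → ℂ) (hζ : ∀ j, ‖ζ j‖ = 1) :
    PS (fun x => Phi j m (fun l => x * ζ l) f) (pc j m ζ f) := by
  classical
  intro x hx
  have hz : ∀ l, ‖x * ζ l‖ < 1 := by
    intro l
    rw [norm_mul, hζ, mul_one]
    exact hx
  have h1 := hf _ (update_norm hz j (w := 1 / 2) (by norm_num))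
  set G : (Fin d →₀ ℕ) → ℂ := fun α =>
    if α j = m then coeff α f * ∏ l ∈ univ.erase j, (x * ζ l) ^ α l else 0 with hG
  have hGs : Summable G := by
    apply Summable.of_norm
    refine Summable.of_nonneg_of_le (fun _ => norm_nonneg _) (fun α => ?_)
      (Summable.mul_left ((2:ℝ) ^ m) h1)
    rw [hG]
    simp only
    by_cases h : α j = m
    · rw [if_pos h, ev_update, h]
      rw [← mul_assoc, norm_mul _ ((1 / 2 : ℂ) ^ m), norm_pow]
      have : ‖(1 / 2 : ℂ)‖ = 1 / 2 := by simp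
      rw [this, mul_comm ((2:ℝ) ^ m), mul_assoc, ← mul_pow]
      norm_num
    · rw [if_neg h, norm_zero]
      positivity
  have h2 := fib G (fun α : Fin d →₀ ℕ => ∑ l ∈ univ.erase j, α l) hGs
  refine h2.congr_fun ?_
  intro n
  rw [pc, Finset.sum_mul]
  rw [tsum_eq_sum (s := fa d (n + m))]
  · apply Finset.sum_congr rfl
    intro α hα
    rw [mem_fa, ← Finset.sum_erase_add univ _ (mem_univ j)] at hα
    rw [hG]
    simp only
    by_cases h : α j = m
    · have h3 : ∑ l ∈ univ.erase j, α l = n := by omega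
      rw [if_pos h, if_pos h, if_pos h3]
      simp only [mul_pow]
      rw [Finset.prod_mul_distrib, Finset.prod_pow_eq_pow_sum, h3]
      ring
    · rw [if_neg h, if_neg h]
      simp
  · intro α hα
    by_cases h3 : ∑ l ∈ univ.erase j, α l = n
    · rw [if_pos h3, hG]
      simp only
      rw [if_neg]
      intro h
      apply hα
      rw [mem_fa, ← Finset.sum_erase_add univ _ (mem_univ j), h3, h]
    · rw [if_neg h3]

lemma PS_diff {f : ℂ → ℂ} {a : ℕ → ℂ} (hf : PS f a) :
    DifferentiableOn ℂ f (Metric.ball 0 1) := by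
  intro x hx
  have hx' : ‖x‖ < 1 := by simpa using hx
  obtain ⟨r, hr1, hr2⟩ := exists_between hx'
  have hr0 : 0 ≤ r := (norm_nonneg x).trans hr1.le
  have h1 := hf.summable_norm hr0 hr2
  have h2 : DifferentiableOn ℂ (fun w => ∑' n, a n * w ^ n) (Metric.ball 0 r) := by
    apply Complex.differentiableOn_tsum_of_summable_norm h1
    · intro n
      fun_prop
    · exact Metric.isOpen_ball
    · intro n w hw
      rw [norm_mul, norm_pow]
      have : ‖w‖ < r := by simpa using hw
      gcongr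
  have h3 : DifferentiableAt ℂ (fun w => ∑' n, a n * w ^ n) x :=
    h2.differentiableAt (Metric.isOpen_ball.mem_nhds (by simpa using hr1))
  have h4 : DifferentiableAt ℂ f x := by
    apply h3.congr_of_eventuallyEq
    filter_upwards [Metric.isOpen_ball.mem_nhds hx] with w hw
    exact (hf w (by simpa using hw)).tsum_eq.symm
  exact h4.differentiableWithinAt

/-- a bound for the coefficients in a fixed direction gives a bound for the square sums -/
theorem dir_sum {f : MvPowerSeries (Fin d) ℂ}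
    (hf : ∀ z : Fin d → ℂ, (∀ j, ‖z j‖ < 1) → AbsAt z f) (j : Fin d) (m : ℕ) (B : ℝ) (hB : 0 < B)
    (hbd : ∀ z : Fin d → ℂ, (∀ j, ‖z j‖ < 1) → ‖Phi j m z f‖ ≤ B) (M : ℕ) :
    ∑ n ∈ range M, ∑ α ∈ fa d n, ‖(if α j = m then coeff α f else 0 : ℂ)‖ ^ 2 ≤ B ^ 2 := by
  classical
  have h := avg_le M (fun _ => (1:ℝ)) (fun α => if α j = m then coeff α f else 0) (B ^ 2) ?_
  · simpa using h
  intro ζ hζ
  have hps := ps_l hf j m ζ hζ
  have hps2 := hps.const_mul ((B:ℂ)⁻¹)
  have hd := PS_diff hps2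
  have hb : ∀ x : ℂ, ‖x‖ < 1 → ‖(B:ℂ)⁻¹ * Phi j m (fun l => x * ζ l) f‖ ≤ 1 := by
    intro x hx
    rw [norm_mul, norm_inv, Complex.norm_real, Real.norm_of_nonneg hB.le, inv_mul_le_iff₀ hB,
      mul_one]
    apply hbd
    intro l
    rw [norm_mul, hζ, mul_one]
    exact hx
  have h1 := hps2.sum_sq_le_one hd hb M
  have h2 : ∑ n ∈ range M, ‖pc j m ζ f n‖ ^ 2 ≤ B ^ 2 := by
    have e : ∀ n, ‖(B:ℂ)⁻¹ * pc j m ζ f n‖ ^ 2 = (B ^ 2)⁻¹ * ‖pc j m ζ f n‖ ^ 2 := by
      intro n
      rw [norm_mul, norm_inv, Complex.norm_real, Real.norm_of_nonneg hB.le, mul_pow, inv_pow]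
    simp only [e] at h1
    rw [← Finset.mul_sum, inv_mul_le_iff₀ (by positivity), mul_one] at h1
    exact h1
  -- compare the sums
  have h3 : ∀ n, ‖∑ α ∈ fa d n, (if α j = m then coeff α f else 0 : ℂ) * ∏ l, ζ l ^ α l‖ ^ 2 =
      if m ≤ n then ‖pc j m ζ f (n - m)‖ ^ 2 else 0 := by
    intro n
    by_cases hmn : m ≤ n
    · rw [if_pos hmn]
      have e : ∑ α ∈ fa d n, (if α j = m then coeff α f else 0 : ℂ) * ∏ l, ζ l ^ α l =
          pc j m ζ f (n - m) * ζ j ^ m := by
        rw [pc, Nat.sub_add_cancel hmn, Finset.sum_mul]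
        apply Finset.sum_congr rfl
        intro α _
        by_cases h : α j = m
        · rw [if_pos h, if_pos h, ← Finset.prod_erase_mul univ _ (mem_univ j), h]
          ring
        · rw [if_neg h, if_neg h]
          simp
      rw [e, norm_mul, norm_pow, hζ, one_pow, mul_one]
    · rw [if_neg hmn]
      have e : ∑ α ∈ fa d n, (if α j = m then coeff α f else 0 : ℂ) * ∏ l, ζ l ^ α l = 0 := by
        apply Finset.sum_eq_zero
        intro α hα
        rw [if_neg, zero_mul]
        intro h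
        rw [mem_fa] at hα
        have := Finset.single_le_sum (f := fun i => α i) (fun _ _ => Nat.zero_le _) (mem_univ j)
        omega
      rw [e]
      simp
  simp only [one_mul]
  simp only [h3]
  rw [← Finset.sum_filter]
  refine le_trans ?_ h2
  have h4 : ∑ n ∈ (range M).filter (fun n => m ≤ n), ‖pc j m ζ f (n - m)‖ ^ 2 =
      ∑ n ∈ ((range M).filter (fun n => m ≤ n)).image (fun n => n - m), ‖pc j m ζ f n‖ ^ 2 := by
    rw [Finset.sum_image]
    intro a ha b hb hab
    simp only [coe_filter, Set.mem_ofPred_eq] at ha hb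
    simp only at hab
    omega
  rw [h4]
  apply Finset.sum_le_sum_of_subset_of_nonneg
  · intro n hn
    simp only [mem_image, mem_filter, mem_range] at hn ⊢
    obtain ⟨a, ⟨h5, h6⟩, rfl⟩ := hn
    omega
  · intro _ _ _
    positivity

end Pool.Agent.K1H23.SR
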