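import Pool.Agent.K1H23.SR.Dual

set_option autoImplicit false

/-! Bounds for the coefficients in one direction. -/

namespace Pool.Agent.K1H23.SR
open Finset MvPowerSeries Pool.Agent.H650R3.Cyc
open Pool.Agent.Helper610.Bohr (PS conv herglotz_bound)

variable {d : ℕ}

/-- coefficients of functions of positive real part -/
lemma cara {H : ℂ → ℂ} {η : ℕ → ℂ} (hH : PS H η) (hre : ∀ z : ℂ, ‖z‖ < 1 → 0 ≤ (H z).re)
    (h0 : 0 < (η 0).re) (m : ℕ) : ‖η m‖ ≤ 2 * ‖η 0‖ := by
  rcases Nat.eq_zero_or_pos m with rfl | hm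
  · have := norm_nonneg (η 0)
    linarith
  set x := (η 0).re with hx
  set y := (η 0).im with hy
  have hη : η 0 = (x : ℂ) + y * Complex.I := (Complex.re_add_im (η 0)).symm
  have hxne : (x : ℂ) ≠ 0 := by exact_mod_cast h0.ne'
  have hP := (hH.sub (PS.const ((y : ℂ) * Complex.I))).const_mul ((x : ℂ)⁻¹)
  have hd := PS_diff hP
  have hp0 : (x : ℂ)⁻¹ * (η 0 - if (0:ℕ) = 0 then (y : ℂ) * Complex.I else 0) = 1 := by
    rw [if_pos rfl, hη, add_sub_cancel_right, inv_mul_cancel₀ hxne]
  have hre' : ∀ z : ℂ, ‖z‖ < 1 → 0 ≤ ((x : ℂ)⁻¹ * (H z - (y : ℂ) * Complex.I)).re := by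
    intro z hz
    rw [← Complex.ofReal_inv, Complex.re_ofReal_mul]
    have h1 : (H z - (y : ℂ) * Complex.I).re = (H z).re := by simp
    rw [h1]
    exact mul_nonneg (inv_nonneg.mpr h0.le) (hre z hz)
  have hb := herglotz_bound hP hd hre' hp0 1 (m + 1) (fun _ => 1) (fun _ => zero_le_one)
    (fun _ k => if k = m then 1 else 0) 2 ?_
  · simp only [Finset.sum_range_one, one_mul] at hb
    have h1 : ∑ k ∈ range (m + 1), (if k = m then (1:ℂ) else 0) *
        ((x : ℂ)⁻¹ * (η k - if k = 0 then (y : ℂ) * Complex.I else 0)) = (x : ℂ)⁻¹ * η m := by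
      rw [Finset.sum_eq_single m]
      · rw [if_pos rfl, if_neg hm.ne', sub_zero, one_mul]
      · intro k _ hk
        rw [if_neg hk, zero_mul]
      · intro h
        exact absurd (mem_range.mpr (Nat.lt_succ_self m)) h
    rw [h1, norm_mul, norm_inv, Complex.norm_real, Real.norm_of_nonneg h0.le,
      inv_mul_le_iff₀ h0] at hb
    have h2 : x ≤ ‖η 0‖ := Complex.re_le_norm _
    linarith
  · intro ζ hζ
    simp only [Finset.sum_range_one, one_mul]
    rw [Finset.sum_eq_single m]
    · rw [if_pos rfl, if_neg hm.ne', one_mul, norm_mul, norm_pow, hζ, one_pow]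
      simp
    · intro k _ hk
      rw [if_neg hk, zero_mul]
    · intro h
      exact absurd (mem_range.mpr (Nat.lt_succ_self m)) h

/-- values of polynomials on the polydisc -/
lemma eval_le_n1 (P : MvPolynomial (Fin d) ℂ) (z : Fin d → ℂ) (hz : ∀ j, ‖z j‖ ≤ 1) :
    ‖MvPolynomial.eval z P‖ ≤ n1 P := by
  rw [MvPolynomial.eval_eq', n1]
  refine (norm_sum_le _ _).trans (Finset.sum_le_sum fun α _ => ?_)
  rw [norm_mul, norm_prod]
  have : ∏ j, ‖z j ^ α j‖ ≤ 1 := by
    apply Finset.prod_le_one (fun _ _ => norm_nonneg _)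
    intro j _
    rw [norm_pow]
    exact pow_le_one₀ (norm_nonneg _) (hz j)
  calc _ ≤ ‖P.coeff α‖ * 1 := by gcongr
    _ = _ := mul_one _

/-- a polynomial in the direction `j` -/
lemma poly_ps (G : MvPolynomial (Fin d) ℂ) (j : Fin d) (z : Fin d → ℂ) (hz : ∀ j, ‖z j‖ < 1) :
    ∃ p : ℕ → ℂ, PS (fun w => MvPolynomial.eval (Function.update z j w) G) p ∧
      ∀ M, ∑ n ∈ range M, ‖p n‖ ≤ n1 G := by
  classical
  set c : (Fin d →₀ ℕ) → ℂ := fun α => G.coeff α * ∏ l ∈ univ.erase j, z l ^ α l with hc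
  refine ⟨fun n => ∑ α ∈ G.support, if α j = n then c α else 0, ?_, fun M => ?_⟩
  · intro w _
    have h1 : MvPolynomial.eval (Function.update z j w) G =
        ∑ α ∈ G.support, c α * w ^ α j := by
      rw [MvPolynomial.eval_eq']
      apply Finset.sum_congr rfl
      intro α _
      have := ev_update z j w α
      rw [ev] at this
      rw [this, hc]
      ring
    simp only [h1, Finset.sum_mul]
    apply hasSum_sum
    intro α _
    have h2 := hasSum_ite_eq (α j) (c α * w ^ α j)
    refine h2.congr_fun ?_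
    intro n
    by_cases h : α j = n
    · rw [if_pos h, if_pos h.symm, h]
    · rw [if_neg h, if_neg (fun h' => h h'.symm), zero_mul]
  · calc ∑ n ∈ range M, ‖∑ α ∈ G.support, if α j = n then c α else 0‖
        ≤ ∑ n ∈ range M, ∑ α ∈ G.support, ‖if α j = n then c α else 0‖ :=
          Finset.sum_le_sum fun n _ => norm_sum_le _ _
      _ = ∑ α ∈ G.support, ∑ n ∈ range M, ‖if α j = n then c α else 0‖ := Finset.sum_comm
      _ ≤ ∑ α ∈ G.support, ‖G.coeff α‖ := by
          apply Finset.sum_le_sum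
          intro α _
          have h1 : ‖c α‖ ≤ ‖G.coeff α‖ := by
            rw [hc]
            simp only
            rw [norm_mul, norm_prod]
            have : ∏ l ∈ univ.erase j, ‖z l ^ α l‖ ≤ 1 := by
              apply Finset.prod_le_one (fun _ _ => norm_nonneg _)
              intro l _
              rw [norm_pow]
              exact pow_le_one₀ (norm_nonneg _) (hz l).le
            calc _ ≤ ‖G.coeff α‖ * 1 := by gcongr
              _ = _ := mul_one _
          have h2 : ∀ n, ‖(if α j = n then c α else 0 : ℂ)‖ = if α j = n then ‖c α‖ else 0 := by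
            intro n
            split_ifs <;> simp
          simp only [h2]
          rw [Finset.sum_ite_eq]
          split_ifs
          · exact h1
          · exact norm_nonneg _
      _ = n1 G := rfl

lemma eval_update_free {P : MvPolynomial (Fin d) ℂ} {j : Fin d} (hj : j ∉ P.vars)
    (z : Fin d → ℂ) (w : ℂ) :
    MvPolynomial.eval (Function.update z j w) P = MvPolynomial.eval z P := by
  apply MvPolynomial.eval₂Hom_congr' rfl _ rfl
  intro i hi _
  rw [Function.update_of_ne]
  rintro rfl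
  exact hj hi

lemma val_one (z : Fin d → ℂ) : val z (1 : MvPowerSeries (Fin d) ℂ) = 1 := by
  classical
  rw [val, tsum_eq_single 0]
  · simp [ev]
  · intro α hα
    rw [coeff_one, if_neg hα, zero_mul]

/-- **The coefficients in the direction `j`.** -/
theorem dir_bound {Q S e G : MvPolynomial (Fin d) ℂ} (u : MvPowerSeries (Fin d) ℂ)
    (hu : u * (Q : MvPowerSeries (Fin d) ℂ) = 1) (hQ : ZeroFree Q)
    (hre : ∀ z : Fin d → ℂ, (∀ j, ‖z j‖ < 1) →
      0 < (MvPolynomial.eval z S / MvPolynomial.eval z Q).re) (j : Fin d) (hej : j ∉ e.vars) (C : ℝ)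
    (hC : ∀ z : Fin d → ℂ, (∀ j, ‖z j‖ < 1) → ‖MvPolynomial.eval z e‖ *
      ‖MvPolynomial.eval (Function.update z j 0) S / MvPolynomial.eval (Function.update z j 0) Q‖ ≤ C)
    (m : ℕ) (z : Fin d → ℂ) (hz : ∀ j, ‖z j‖ < 1) :
    ‖Phi j m z (((G * e * S : MvPolynomial (Fin d) ℂ) : MvPowerSeries (Fin d) ℂ) * u)‖ ≤
      n1 G * (2 * C) := by
  classical
  have habs : ∀ z : Fin d → ℂ, (∀ j, ‖z j‖ < 1) → AbsAt z u := fun z hz => absAt_inv hQ u hu z hz
  have habs2 : ∀ z : Fin d → ℂ, (∀ j, ‖z j‖ < 1) →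
      AbsAt z (((G * e * S : MvPolynomial (Fin d) ℂ) : MvPowerSeries (Fin d) ℂ) * u) :=
    fun z hz => (poly_mul z _ u (habs z hz)).1
  have hval : ∀ z : Fin d → ℂ, (∀ j, ‖z j‖ < 1) → val z u * MvPolynomial.eval z Q = 1 := by
    intro z hz
    have h := (poly_mul z Q u (habs z hz)).2
    rw [mul_comm (Q : MvPowerSeries (Fin d) ℂ) u, hu, val_one] at h
    rw [mul_comm, ← h]
  set H : ℂ → ℂ := fun w => MvPolynomial.eval (Function.update z j w) S /
    MvPolynomial.eval (Function.update z j w) Q with hH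
  have hHd : DifferentiableOn ℂ H (Metric.ball 0 1) := by
    obtain ⟨p1, hp1, _⟩ := poly_ps S j z hz
    obtain ⟨p2, hp2, _⟩ := poly_ps Q j z hz
    refine (PS_diff hp1).div (PS_diff hp2) ?_
    intro w hw
    exact hQ _ (update_norm hz j (by simpa using hw))
  set η := Pool.Agent.Helper610.Bohr.coeff H with hη
  have hps : PS H η := PS.of_diff hHd
  have hη0 : η 0 = H 0 := by
    have h1 := hps 0 (by simp)
    have h2 : HasSum (fun n => η n * (0:ℂ) ^ n) (η 0) := by
      have h3 := hasSum_single (f := fun n => η n * (0:ℂ) ^ n) 0 (fun n hn => by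
        simp [hn])
      simpa using h3
    exact h2.unique h1
  have hηb : ∀ n, ‖η n‖ ≤ 2 * ‖η 0‖ := by
    apply cara hps
    · intro w hw
      exact (hre _ (update_norm hz j hw)).le
    · rw [hη0]
      exact hre _ (update_norm hz j (by simp))
  obtain ⟨p, hp, hpn⟩ := poly_ps G j z hz
  have hprod := hp.mul (hps.const_mul (MvPolynomial.eval z e))
  have hw := ps_w habs2 j z hz
  have heq : PS (fun w => val (Function.update z j w)
      (((G * e * S : MvPolynomial (Fin d) ℂ) : MvPowerSeries (Fin d) ℂ) * u))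
      (conv p (fun n => MvPolynomial.eval z e * η n)) := by
    apply hprod.congr
    intro w hw
    have hz' := update_norm hz j hw
    have hQ0 := hQ _ hz'
    rw [(poly_mul _ _ u (habs _ hz')).2, map_mul, map_mul, eval_update_free hej]
    have h1 := hval _ hz'
    have h2 : val (Function.update z j w) u =
        (MvPolynomial.eval (Function.update z j w) Q)⁻¹ := eq_inv_of_mul_eq_one_left h1
    rw [h2, hH]
    simp only
    rw [div_eq_mul_inv]
    ring
  have huniq := PS.unique hw heq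
  have hm : Phi j m z (((G * e * S : MvPolynomial (Fin d) ℂ) : MvPowerSeries (Fin d) ℂ) * u) =
      conv p (fun n => MvPolynomial.eval z e * η n) m := congrFun huniq m
  rw [hm, conv]
  have hb : ∀ n, ‖MvPolynomial.eval z e * η n‖ ≤ 2 * C := by
    intro n
    rw [norm_mul]
    have h1 := hC z hz
    have h2 := hηb n
    rw [hη0] at h2
    have h3 : H 0 = MvPolynomial.eval (Function.update z j 0) S /
      MvPolynomial.eval (Function.update z j 0) Q := rfl
    rw [← h3] at h1
    calc ‖MvPolynomial.eval z e‖ * ‖η n‖ ≤ ‖MvPolynomial.eval z e‖ * (2 * ‖H 0‖) := by gcongr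
      _ = 2 * (‖MvPolynomial.eval z e‖ * ‖H 0‖) := by ring
      _ ≤ 2 * C := by linarith
  have hC0 : 0 ≤ 2 * C := (norm_nonneg _).trans (hb 0)
  calc ‖∑ kl ∈ antidiagonal m, p kl.1 * (MvPolynomial.eval z e * η kl.2)‖
      ≤ ∑ kl ∈ antidiagonal m, ‖p kl.1 * (MvPolynomial.eval z e * η kl.2)‖ := norm_sum_le _ _
    _ ≤ ∑ kl ∈ antidiagonal m, ‖p kl.1‖ * (2 * C) := by
        apply Finset.sum_le_sum
        intro kl _
        rw [norm_mul]
        exact mul_le_mul_of_nonneg_left (hb _) (norm_nonneg _)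
    _ = (∑ n ∈ range (m + 1), ‖p n‖) * (2 * C) := by
        rw [← Finset.sum_mul]
        congr 1
        rw [Finset.Nat.sum_antidiagonal_eq_sum_range_succ_mk]
    _ ≤ n1 G * (2 * C) := mul_le_mul_of_nonneg_right (hpn _) hC0

end Pool.Agent.K1H23.SR
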