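import Pool.Agent.K1H23.SR.Ana

set_option autoImplicit false

/-! Polynomials annihilated by a nonzero functional are not cyclic. -/

namespace Pool.Agent.K1H23.SR
open Finset MvPowerSeries Pool.Agent.H650R3.Cyc

variable {d : ℕ}

theorem not_cyclic {t : ℝ} {Q : MvPolynomial (Fin d) ℂ} (b : (Fin d →₀ ℕ) → ℂ) (A : ℝ)
    (hA : ∀ s : Finset (Fin d →₀ ℕ), ∑ α ∈ s, ‖b α‖ ^ 2 / wt t α ≤ A)
    (hann : ∀ γ : Fin d →₀ ℕ, ∑ α ∈ Q.support, Q.coeff α * (starRingEnd ℂ) (b (α + γ)) = 0)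
    (α0 : Fin d →₀ ℕ) (hb : b α0 ≠ 0) : ¬ ShiftCyclic t (Q : MvPowerSeries (Fin d) ℂ) := by
  classical
  intro hcyc
  have hA0 : 0 ≤ A := by simpa using hA ∅
  set ell : MvPolynomial (Fin d) ℂ →ₗ[ℂ] ℂ :=
    (MvPolynomial.basisMonomials (Fin d) ℂ).constr ℂ (fun α => (starRingEnd ℂ) (b α)) with hell
  have hmon : ∀ (α : Fin d →₀ ℕ) (a : ℂ), ell (MvPolynomial.monomial α a) =
      a * (starRingEnd ℂ) (b α) := by
    intro α a
    have e : MvPolynomial.monomial α a = a • MvPolynomial.monomial α (1:ℂ) := by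
      rw [MvPolynomial.smul_monomial, smul_eq_mul, mul_one]
    have e2 : ell (MvPolynomial.monomial α (1:ℂ)) = (starRingEnd ℂ) (b α) := by
      have h := (MvPolynomial.basisMonomials (Fin d) ℂ).constr_basis ℂ
        (fun α => (starRingEnd ℂ) (b α)) α
      rw [MvPolynomial.coe_basisMonomials] at h
      exact h
    rw [e, map_smul, e2, smul_eq_mul]
  have hexp : ∀ h : MvPolynomial (Fin d) ℂ, ell h =
      ∑ α ∈ h.support, h.coeff α * (starRingEnd ℂ) (b α) := by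
    intro h
    conv_lhs => rw [h.as_sum, map_sum]
    apply Finset.sum_congr rfl
    intro α _
    rw [hmon]
  have hmQ : ∀ (γ : Fin d →₀ ℕ) (a : ℂ), ell (MvPolynomial.monomial γ a * Q) = 0 := by
    intro γ a
    conv_lhs => rw [Q.as_sum, Finset.mul_sum, map_sum]
    have h1 : ∀ α ∈ Q.support, ell (MvPolynomial.monomial γ a *
        MvPolynomial.monomial α (Q.coeff α)) =
        a * (Q.coeff α * (starRingEnd ℂ) (b (α + γ))) := by
      intro α _
      rw [MvPolynomial.monomial_mul, hmon, add_comm γ α]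
      ring
    rw [Finset.sum_congr rfl h1, ← Finset.mul_sum, hann, mul_zero]
  have hpQ : ∀ p : MvPolynomial (Fin d) ℂ, ell (p * Q) = 0 := by
    intro p
    conv_lhs => rw [p.as_sum, Finset.sum_mul, map_sum]
    exact Finset.sum_eq_zero fun γ _ => hmQ γ _
  have hpos : 0 < ‖b α0‖ ^ 2 := by
    have := norm_pos_iff.mpr hb
    positivity
  obtain ⟨p, hp1, hp2⟩ := hcyc.2 (MvPolynomial.monomial α0 (1:ℂ) : MvPolynomial (Fin d) ℂ)
    (mem_poly t _) (‖b α0‖ ^ 2 / (A + 1)) (by positivity)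
  set h : MvPolynomial (Fin d) ℂ := p * Q - MvPolynomial.monomial α0 (1:ℂ) with hh
  have e : (p : MvPowerSeries (Fin d) ℂ) * (Q : MvPowerSeries (Fin d) ℂ) -
      ((MvPolynomial.monomial α0 (1:ℂ) : MvPolynomial (Fin d) ℂ) : MvPowerSeries (Fin d) ℂ) =
      (h : MvPowerSeries (Fin d) ℂ) := by
    rw [hh, coe_sub', MvPolynomial.coe_mul]
  rw [e] at hp1 hp2
  have h1 : ell h = -(starRingEnd ℂ) (b α0) := by
    rw [hh, map_sub, hpQ, hmon]
    ring
  have h2 : ‖b α0‖ ≤ ∑ α ∈ h.support, ‖coeff α (h : MvPowerSeries (Fin d) ℂ)‖ * ‖b α‖ := by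
    have h3 : ‖ell h‖ = ‖b α0‖ := by
      rw [h1, norm_neg, RCLike.norm_conj]
    rw [← h3, hexp]
    refine (norm_sum_le _ _).trans (le_of_eq ?_)
    apply Finset.sum_congr rfl
    intro α _
    rw [norm_mul, RCLike.norm_conj, MvPolynomial.coeff_coe]
  have h3 := cs_bound t _ hp1 h.support (fun α => ‖b α‖) (fun _ => norm_nonneg _) A (hA _)
  have h4 : ‖b α0‖ ^ 2 ≤ A * normSq t (h : MvPowerSeries (Fin d) ℂ) :=
    (pow_le_pow_left₀ (norm_nonneg _) h2 2).trans h3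
  have h5 : A * normSq t (h : MvPowerSeries (Fin d) ℂ) ≤ A * (‖b α0‖ ^ 2 / (A + 1)) :=
    mul_le_mul_of_nonneg_left hp2.le hA0
  have h6 : A * (‖b α0‖ ^ 2 / (A + 1)) < ‖b α0‖ ^ 2 := by
    rw [← mul_div_assoc, div_lt_iff₀ (by positivity)]
    nlinarith
  linarith

/-- the weights are dominated by an average -/
lemma wt_amgm {t : ℝ} (ht : 0 ≤ t) (K : Finset (Fin d)) (hK : K.Nonempty) (α : Fin d →₀ ℕ) :
    (wt t α)⁻¹ ≤ (1 / (K.card : ℝ)) * ∑ j ∈ K, (1 + (α j : ℝ)) ^ (-(t * K.card)) := by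
  have hk : (0:ℝ) < K.card := by exact_mod_cast hK.card_pos
  have h1 : (wt t α)⁻¹ ≤ ∏ j ∈ K, (1 + (α j : ℝ)) ^ (-t) := by
    have e : wt t α = (∏ j ∈ univ \ K, (1 + (α j : ℝ)) ^ t) * ∏ j ∈ K, (1 + (α j : ℝ)) ^ t := by
      rw [wt, Finset.prod_sdiff (Finset.subset_univ K)]
    have h2 : 1 ≤ ∏ j ∈ univ \ K, (1 + (α j : ℝ)) ^ t := by
      apply Finset.one_le_prod
      intro j _
      exact Real.one_le_rpow (by have : (0:ℝ) ≤ α j := Nat.cast_nonneg _; linarith) ht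
    have h3 : 0 < ∏ j ∈ K, (1 + (α j : ℝ)) ^ t := Finset.prod_pos fun j _ => by positivity
    have h4 : ∏ j ∈ K, (1 + (α j : ℝ)) ^ (-t) = (∏ j ∈ K, (1 + (α j : ℝ)) ^ t)⁻¹ := by
      rw [← Finset.prod_inv_distrib]
      apply Finset.prod_congr rfl
      intro j _
      rw [Real.rpow_neg (by positivity)]
    rw [h4, e]
    apply inv_anti₀ h3
    nlinarith
  refine h1.trans ?_
  have h3 := Real.geom_mean_le_arith_mean_weighted K (fun _ => 1 / (K.card : ℝ))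
    (fun j => (1 + (α j : ℝ)) ^ (-(t * K.card))) (fun _ _ => by positivity)
    (by rw [Finset.sum_const, nsmul_eq_mul]; field_simp) (fun _ _ => by positivity)
  rw [← Finset.mul_sum] at h3
  refine le_trans (le_of_eq ?_) h3
  apply Finset.prod_congr rfl
  intro j _
  rw [← Real.rpow_mul (by positivity)]
  congr 1
  field_simp

/-- bounded sums in the directions of `K` give a finite dual norm -/
theorem dual_sum {t : ℝ} (ht : 0 ≤ t) (K : Finset (Fin d)) (hK : K.Nonempty)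
    (htk : 1 < t * K.card) (b : (Fin d →₀ ℕ) → ℂ) (B : ℝ)
    (hB : ∀ j ∈ K, ∀ (m : ℕ) (s : Finset (Fin d →₀ ℕ)),
      ∑ α ∈ s.filter (fun α => α j = m), ‖b α‖ ^ 2 ≤ B) :
    ∃ A : ℝ, ∀ s : Finset (Fin d →₀ ℕ), ∑ α ∈ s, ‖b α‖ ^ 2 / wt t α ≤ A := by
  classical
  have hB0 : 0 ≤ B := by
    obtain ⟨j, hj⟩ := hK
    simpa using hB j hj 0 ∅
  have hk : (0:ℝ) < K.card := by exact_mod_cast hK.card_pos
  have hsum : Summable fun m : ℕ => (1 + (m:ℝ)) ^ (-(t * K.card)) := by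
    have h1 := (summable_nat_add_iff 1).mpr
      (Real.summable_nat_rpow (p := -(t * K.card)) |>.mpr (by linarith))
    refine h1.congr fun m => ?_
    push_cast
    rw [add_comm]
  refine ⟨(1 / (K.card : ℝ)) * ∑ _j ∈ K, ∑' m : ℕ, (1 + (m:ℝ)) ^ (-(t * K.card)) * B, fun s => ?_⟩
  have h1 : ∑ α ∈ s, ‖b α‖ ^ 2 / wt t α ≤ ∑ α ∈ s, (1 / (K.card : ℝ)) *
      ∑ j ∈ K, (1 + (α j : ℝ)) ^ (-(t * K.card)) * ‖b α‖ ^ 2 := by
    apply Finset.sum_le_sum
    intro α _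
    rw [div_eq_mul_inv, ← Finset.sum_mul, ← mul_assoc, mul_comm]
    exact mul_le_mul_of_nonneg_right (wt_amgm ht K hK α) (sq_nonneg _)
  refine h1.trans ?_
  rw [← Finset.mul_sum, Finset.sum_comm]
  apply mul_le_mul_of_nonneg_left _ (by positivity)
  apply Finset.sum_le_sum
  intro j hj
  have h2 : ∑ α ∈ s, (1 + (α j : ℝ)) ^ (-(t * K.card)) * ‖b α‖ ^ 2 =
      ∑ m ∈ s.image (fun α : Fin d →₀ ℕ => (α j : ℕ)), (1 + ((m : ℕ) : ℝ)) ^ (-(t * K.card)) *
        ∑ α ∈ s.filter (fun α => α j = m), ‖b α‖ ^ 2 := by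
    rw [← Finset.sum_fiberwise_of_maps_to (t := s.image (fun α => α j))
      (g := fun α : Fin d →₀ ℕ => α j) (fun α hα => Finset.mem_image_of_mem _ hα)]
    apply Finset.sum_congr rfl
    intro m _
    rw [Finset.mul_sum]
    apply Finset.sum_congr rfl
    intro α hα
    rw [(Finset.mem_filter.mp hα).2]
  rw [h2]
  refine le_trans (Finset.sum_le_sum fun m _ => ?_)
    ((hsum.mul_right B).sum_le_tsum _ fun m _ => ?_)
  · exact mul_le_mul_of_nonneg_left (hB j hj m s) (by positivity)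
  · positivity

end Pool.Agent.K1H23.SR
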