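import Mathlib

set_option autoImplicit false

/-! Elimination of one variable from the coefficients of a prime polynomial. -/

namespace Pool.Agent.K1H23.SR
open Polynomial

/-- The coefficients of a prime polynomial of positive degree over `A[X]` generate an ideal which
contains a nonzero element of `A`. -/
theorem elim0 {A : Type*} [CommRing A] [IsDomain A] (Q : Polynomial (Polynomial A))
    (hQ : Prime Q) (hY : 0 < Q.natDegree) :
    ∃ a : A, a ≠ 0 ∧ (C a : Polynomial A) ∈ Ideal.span (Set.range Q.coeff) := by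
  classical
  set K := FractionRing A with hK
  have hinj : Function.Injective (algebraMap A K) := IsFractionRing.injective A K
  set φ : Polynomial A →+* Polynomial K := Polynomial.mapRingHom (algebraMap A K) with hφ
  have hφinj : Function.Injective φ := Polynomial.map_injective _ hinj
  set I := Ideal.span (Set.range Q.coeff) with hI
  -- clearing denominators
  have hclear : ∀ k : Polynomial K, ∃ b : A, b ≠ 0 ∧ ∃ k' : Polynomial A,
      φ k' = C (algebraMap A K b) * k := by
    intro k
    obtain ⟨b, hb, hb2⟩ := IsLocalization.integerNormalization_spec (nonZeroDivisors A)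
      (S := K) k
    refine ⟨b, nonZeroDivisors.ne_zero hb, IsLocalization.integerNormalization (nonZeroDivisors A) k, ?_⟩
    rw [hφ, Polynomial.coe_mapRingHom, hb2]
    rw [← Polynomial.smul_eq_C_mul, algebraMap_smul]
  obtain ⟨q, hq⟩ : ∃ q : Polynomial K, I.map φ = Ideal.span {q} := by
    have := IsPrincipalIdealRing.principal (I.map φ)
    exact ⟨_, (Ideal.span_singleton_generator (I.map φ)).symm⟩
  have hdvd : ∀ s, q ∣ φ (Q.coeff s) := by
    intro s
    rw [← Ideal.mem_span_singleton, ← hq]
    exact Ideal.mem_map_of_mem φ (Ideal.subset_span ⟨s, rfl⟩)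
  have hQ0 : Q ≠ 0 := hQ.ne_zero
  have hq0 : q ≠ 0 := by
    rintro rfl
    apply hQ0
    ext1 s
    have := hdvd s
    rw [zero_dvd_iff] at this
    rw [Polynomial.coeff_zero]
    exact hφinj (by rw [this, map_zero])
  by_cases hdeg : q.natDegree = 0
  · -- `q` is a unit
    have hu : IsUnit q := by
      rw [Polynomial.eq_C_of_natDegree_eq_zero hdeg] at hq0 ⊢
      rw [Polynomial.isUnit_C, isUnit_iff_ne_zero]
      intro h
      rw [h, C_0] at hq0
      exact hq0 rfl
    have h1 : (1 : Polynomial K) ∈ I.map φ := by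
      rw [hq, Ideal.span_singleton_eq_top.mpr hu]
      trivial
    -- elements of the extended ideal have multiples in the ideal
    have key : ∀ x ∈ I.map φ, ∃ b : A, b ≠ 0 ∧ ∃ y ∈ I, φ y = C (algebraMap A K b) * x := by
      intro x hx
      refine Submodule.span_induction (p := fun x _ => ∃ b : A, b ≠ 0 ∧ ∃ y ∈ I,
        φ y = C (algebraMap A K b) * x) ?_ ?_ ?_ ?_ hx
      · rintro x ⟨y, hy, rfl⟩
        exact ⟨1, one_ne_zero, y, hy, by simp⟩
      · exact ⟨1, one_ne_zero, 0, I.zero_mem, by simp⟩
      · rintro x y _ _ ⟨b1, hb1, y1, hy1, e1⟩ ⟨b2, hb2, y2, hy2, e2⟩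
        refine ⟨b1 * b2, mul_ne_zero hb1 hb2, C b2 * y1 + C b1 * y2,
          I.add_mem (I.mul_mem_left _ hy1) (I.mul_mem_left _ hy2), ?_⟩
        rw [map_add, map_mul, map_mul, e1, e2]
        have e3 : ∀ b : A, φ (C b) = C (algebraMap A K b) := fun b => by simp [hφ]
        rw [e3, e3, map_mul, C_mul]
        ring
      · rintro k x _ ⟨b1, hb1, y1, hy1, e1⟩
        obtain ⟨b2, hb2, k', e2⟩ := hclear k
        refine ⟨b2 * b1, mul_ne_zero hb2 hb1, k' * y1, I.mul_mem_left _ hy1, ?_⟩
        rw [map_mul, e1, e2, map_mul, C_mul, smul_eq_mul]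
        ring
    obtain ⟨b, hb, y, hy, e⟩ := key 1 h1
    refine ⟨b, hb, ?_⟩
    have : C b = y := by
      apply hφinj
      rw [e, mul_one]
      simp [hφ]
    rw [this]
    exact hy
  · exfalso
    obtain ⟨b, hb, q', e⟩ := hclear q
    have hbK : algebraMap A K b ≠ 0 := by
      rw [Ne, ← map_zero (algebraMap A K)]
      exact fun h => hb (hinj h)
    have hq'0 : q' ≠ 0 := by
      rintro rfl
      rw [map_zero] at e
      have := e.symm
      rw [mul_eq_zero, C_eq_zero] at this
      rcases this with h | h
      · exact hbK h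
      · exact hq0 h
    have hq'd : q'.natDegree ≠ 0 := by
      have h1 : (φ q').natDegree = q'.natDegree := by
        rw [hφ, Polynomial.coe_mapRingHom]
        exact Polynomial.natDegree_map_eq_of_injective hinj q'
      rw [← h1, e, Polynomial.natDegree_C_mul hbK]
      exact hdeg
    have hs : ∀ s, ∃ c : A, c ≠ 0 ∧ q' ∣ C c * Q.coeff s := by
      intro s
      obtain ⟨r, hr⟩ := hdvd s
      obtain ⟨c, hc, r', e2⟩ := hclear r
      refine ⟨b * c, mul_ne_zero hb hc, r', ?_⟩
      apply hφinj
      have e3 : ∀ b : A, φ (C b) = C (algebraMap A K b) := fun b => by simp [hφ]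
      rw [map_mul, map_mul φ q' r', e2, e, hr, e3, map_mul, C_mul]
      ring
    choose c hc hcd using hs
    set cc := ∏ s ∈ Q.support, c s with hcc
    have hcc0 : cc ≠ 0 := Finset.prod_ne_zero_iff.mpr fun s _ => hc s
    have h2 : C q' ∣ C (C cc) * Q := by
      rw [Polynomial.C_dvd_iff_dvd_coeff]
      intro s
      rw [Polynomial.coeff_C_mul]
      by_cases hsQ : s ∈ Q.support
      · have : C cc = C (∏ s' ∈ Q.support.erase s, c s') * C (c s) := by
          rw [← C_mul, hcc, Finset.prod_erase_mul _ _ hsQ]
        rw [this, mul_assoc]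
        exact Dvd.dvd.mul_left (hcd s) _
      · rw [Polynomial.notMem_support_iff.mp hsQ, mul_zero]
        exact dvd_zero _
    obtain ⟨r, hr⟩ := h2
    have h3 : Q ∣ C q' * r := ⟨C (C cc), by rw [← hr, mul_comm]⟩
    rcases hQ.dvd_or_dvd h3 with h | h
    · have h4 := Polynomial.natDegree_le_of_dvd h (by rwa [Ne, C_eq_zero])
      rw [Polynomial.natDegree_C] at h4
      omega
    · obtain ⟨r', rfl⟩ := h
      have h5 : C (C cc) = C q' * r' := by
        apply mul_right_cancel₀ hQ0
        rw [hr]
        ring
      have h6 := congrArg (fun p => Polynomial.coeff p 0) h5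
      simp only [Polynomial.coeff_C_zero, Polynomial.coeff_C_mul] at h6
      have h7 : r'.coeff 0 ≠ 0 := by
        intro h
        rw [h, mul_zero, C_eq_zero] at h6
        exact hcc0 h6
      have h8 := Polynomial.natDegree_mul hq'0 h7
      rw [← h6, Polynomial.natDegree_C] at h8
      omega

end Pool.Agent.K1H23.SR
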