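import Pool.Agent.K1H23.SR.Elim

set_option autoImplicit false

/-! Elimination of one variable from the coefficients of a prime polynomial in several variables. -/

namespace Pool.Agent.K1H23.SR
open MvPolynomial

variable {σ : Type*} [DecidableEq σ]

/-- one variable split off -/
noncomputable def sp (j : σ) :
    MvPolynomial σ ℂ ≃ₐ[ℂ] Polynomial (MvPolynomial {l : σ // l ≠ j} ℂ) :=
  (renameEquiv ℂ (Equiv.optionSubtypeNe j).symm).trans (optionEquivLeft ℂ _)

lemma sp_symm_X (j : σ) : (sp j).symm Polynomial.X = X j := by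
  rw [AlgEquiv.symm_apply_eq, sp, AlgEquiv.trans_apply, renameEquiv_apply, rename_X]
  have : (Equiv.optionSubtypeNe j).symm j = none := by simp
  rw [this, optionEquivLeft_X_none]

lemma sp_rename (j : σ) (p : MvPolynomial {l : σ // l ≠ j} ℂ) :
    sp j (rename Subtype.val p) = Polynomial.C p := by
  induction p using MvPolynomial.induction_on with
  | C a =>
    rw [rename_C, sp, AlgEquiv.trans_apply, renameEquiv_apply, rename_C, optionEquivLeft_C]
  | add p q hp hq => rw [map_add, map_add, hp, hq, Polynomial.C_add]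
  | mul_X p i hp =>
    have h1 : sp j (X i.val) = Polynomial.C (X i) := by
      rw [sp, AlgEquiv.trans_apply, renameEquiv_apply, rename_X]
      have : (Equiv.optionSubtypeNe j).symm i.val = some i := by
        rw [Equiv.symm_apply_eq]; simp
      rw [this, optionEquivLeft_X_some]
    rw [map_mul, map_mul, hp, rename_X, Polynomial.C_mul, h1]

lemma sp_symm_C (j : σ) (p : MvPolynomial {l : σ // l ≠ j} ℂ) :
    (sp j).symm (Polynomial.C p) = rename Subtype.val p := by
  rw [AlgEquiv.symm_apply_eq, sp_rename]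

omit [DecidableEq σ] in
lemma not_mem_vars_rename (j : σ) (p : MvPolynomial {l : σ // l ≠ j} ℂ) :
    j ∉ (rename Subtype.val p : MvPolynomial σ ℂ).vars := by
  intro h
  obtain ⟨l, _, hl⟩ := mem_vars_rename _ _ h
  exact l.2 hl

theorem elim1 (Q : MvPolynomial σ ℂ) (hQ : Prime Q) (i j : σ) (hij : i ≠ j) (hj : j ∈ Q.vars) :
    ∃ (N : ℕ) (c : ℕ → MvPolynomial σ ℂ) (S : Finset ℕ) (h : ℕ → MvPolynomial σ ℂ)
      (g : MvPolynomial σ ℂ),
      (∀ n, j ∉ (c n).vars) ∧ Q = ∑ n ∈ Finset.range (N + 1), c n * X j ^ n ∧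
      (∀ n, N < n → c n = 0) ∧
      g ≠ 0 ∧ i ∉ g.vars ∧ j ∉ g.vars ∧ g = ∑ n ∈ S, h n * c n := by
  classical
  set q1 := sp j Q with hq1
  set c' : ℕ → MvPolynomial {l : σ // l ≠ j} ℂ := fun n => q1.coeff n with hc'
  have hprime1 : Prime q1 := (MulEquiv.prime_iff (sp j)).mpr hQ
  have hQsum : Q = ∑ n ∈ Finset.range (q1.natDegree + 1), rename Subtype.val (c' n) * X j ^ n := by
    have h1 := q1.as_sum_range_C_mul_X_pow
    have h2 := congrArg (sp j).symm h1
    rw [map_sum] at h2
    have h3 : (sp j).symm q1 = Q := by rw [hq1, AlgEquiv.symm_apply_apply]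
    rw [h3] at h2
    rw [h2]
    apply Finset.sum_congr rfl
    intro n _
    rw [map_mul, map_pow, sp_symm_C, sp_symm_X]
  set i' : {l : σ // l ≠ j} := ⟨i, hij⟩ with hi'
  -- the second splitting
  set u : MvPolynomial {l : σ // l ≠ j} ℂ →+*
    Polynomial (MvPolynomial {l : {l : σ // l ≠ j} // l ≠ i'} ℂ) := (sp i').toRingEquiv.toRingHom with hu
  set v : Polynomial (MvPolynomial {l : {l : σ // l ≠ j} // l ≠ i'} ℂ) →+*
    MvPolynomial {l : σ // l ≠ j} ℂ := (sp i').symm.toRingEquiv.toRingHom with hv
  have huv : ∀ x, u (v x) = x := fun x => (sp i').apply_symm_apply x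
  have hvu : ∀ x, v (u x) = x := fun x => (sp i').symm_apply_apply x
  set q2 := Polynomial.map u q1 with hq2
  have hprime2 : Prime q2 := by
    refine comap_prime (Polynomial.mapRingHom v) (Polynomial.mapRingHom u) (fun a => ?_) ?_
    · rw [Polynomial.coe_mapRingHom, Polynomial.coe_mapRingHom, Polynomial.map_map]
      have : u.comp v = RingHom.id _ := RingHom.ext huv
      rw [this, Polynomial.map_id]
    · rw [Polynomial.coe_mapRingHom, hq2, Polynomial.map_map]
      have : v.comp u = RingHom.id _ := RingHom.ext hvu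
      rw [this, Polynomial.map_id]
      exact hprime1
  have hco : ∀ n, q2.coeff n = sp i' (c' n) := by
    intro n
    rw [hq2, Polynomial.coeff_map]
    rfl
  have hdeg : 0 < q2.natDegree := by
    have h1 : q2.natDegree = q1.natDegree := by
      rw [hq2]
      exact Polynomial.natDegree_map_eq_of_injective (sp i').injective q1
    rw [h1]
    by_contra h0
    have h0' : q1.natDegree = 0 := by omega
    have h2 : Q = rename Subtype.val (c' 0) := by
      rw [hQsum, h0', zero_add, Finset.sum_range_one, pow_zero, mul_one]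
    rw [h2] at hj
    exact not_mem_vars_rename j _ hj
  obtain ⟨a, ha, hmem⟩ := elim0 q2 hprime2 hdeg
  rw [Ideal.span, Finsupp.mem_span_range_iff_exists_finsupp] at hmem
  obtain ⟨k, hk⟩ := hmem
  refine ⟨q1.natDegree, fun n => rename Subtype.val (c' n), k.support,
    fun n => rename Subtype.val ((sp i').symm (k n)),
    rename Subtype.val (rename Subtype.val a : MvPolynomial {l : σ // l ≠ j} ℂ),
    fun n => not_mem_vars_rename j _, hQsum, ?_, ?_, ?_, not_mem_vars_rename j _, ?_⟩
  · intro n hn
    have : c' n = 0 := Polynomial.coeff_eq_zero_of_natDegree_lt hn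
    simp only [this, map_zero]
  · intro h0
    apply ha
    apply rename_injective _ Subtype.val_injective
    apply rename_injective _ Subtype.val_injective
    rw [h0, map_zero, map_zero]
  · intro h0
    obtain ⟨l, hl, hl2⟩ := mem_vars_rename _ _ h0
    have : l = i' := Subtype.ext hl2
    rw [this] at hl
    exact not_mem_vars_rename i' _ hl
  · rw [Finsupp.sum] at hk
    have h1 := congrArg (sp i').symm hk
    rw [sp_symm_C, map_sum] at h1
    rw [← h1, map_sum]
    apply Finset.sum_congr rfl
    intro n _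
    rw [smul_eq_mul, map_mul, map_mul, hco, AlgEquiv.symm_apply_apply]

end Pool.Agent.K1H23.SR
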