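import Pool.Agent.K1H23.SR.Dir
import Pool.Agent.K1H23.SR.Elim1

set_option autoImplicit false

/-! Self-reflective polynomials in `k` variables are not cyclic in `D_t` for `t k > 1`. -/

namespace Pool.Agent.K1H23.SR
open Finset MvPowerSeries Pool.Agent.H650R3.Cyc

variable {d : ℕ}

/-- the vector of the degrees of `Q` in the variables -/
noncomputable def multideg (Q : MvPolynomial (Fin d) ℂ) : Fin d →₀ ℕ :=
  Finsupp.equivFunOnFinite.symm fun j => Q.degreeOf j

/-- `Q` is self-reflective: `z ^ n * conj (Q (1 / conj z))` is a constant multiple of `Q z`, where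
`n` is the vector of the degrees of `Q` in the variables; written for the coefficients -/
def SelfReflective (Q : MvPolynomial (Fin d) ℂ) : Prop :=
  ∃ c : ℂ, ∀ α β : Fin d →₀ ℕ, α + β = multideg Q →
    (starRingEnd ℂ) (Q.coeff β) = c * Q.coeff α

lemma multideg_apply (Q : MvPolynomial (Fin d) ℂ) (j : Fin d) :
    multideg Q j = Q.degreeOf j := rfl

lemma le_multideg {Q : MvPolynomial (Fin d) ℂ} {α : Fin d →₀ ℕ} (hα : α ∈ Q.support) :
    α ≤ multideg Q := by
  intro j
  rw [multideg_apply]
  exact MvPolynomial.monomial_le_degreeOf j hα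

/-- the polynomial as a polynomial in one variable -/
lemma decomp {σ : Type*} [DecidableEq σ] (Q : MvPolynomial σ ℂ) (j : σ) :
    ∃ c : ℕ → MvPolynomial σ ℂ, (∀ n, j ∉ (c n).vars) ∧
      Q = ∑ n ∈ Finset.range (Q.degreeOf j + 1), c n * MvPolynomial.X j ^ n := by
  classical
  set q1 := sp j Q with hq1
  have hN : q1.natDegree = Q.degreeOf j := by
    rw [MvPolynomial.degreeOf_eq_natDegree j Q]
    rfl
  refine ⟨fun n => MvPolynomial.rename Subtype.val (q1.coeff n),
    fun n => not_mem_vars_rename j _, ?_⟩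
  have h1 := q1.as_sum_range_C_mul_X_pow
  have h2 := congrArg (sp j).symm h1
  rw [map_sum] at h2
  have h3 : (sp j).symm q1 = Q := by rw [hq1, AlgEquiv.symm_apply_apply]
  rw [h3, hN] at h2
  refine h2.trans ?_
  apply Finset.sum_congr rfl
  intro n _
  rw [map_mul, map_pow, sp_symm_C, sp_symm_X]

/-- the polynomial in one variable obtained by fixing the other variables -/
noncomputable def line (c : ℕ → MvPolynomial (Fin d) ℂ) (N : ℕ) (z : Fin d → ℂ) : Polynomial ℂ :=
  ∑ n ∈ Finset.range (N + 1), Polynomial.C (MvPolynomial.eval z (c n)) * Polynomial.X ^ n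

lemma line_coeff (c : ℕ → MvPolynomial (Fin d) ℂ) (N : ℕ) (z : Fin d → ℂ) {n : ℕ} (hn : n ≤ N) :
    (line c N z).coeff n = MvPolynomial.eval z (c n) := by
  rw [line, Polynomial.finsetSum_coeff]
  simp only [Polynomial.coeff_C_mul, Polynomial.coeff_X_pow]
  rw [Finset.sum_eq_single n]
  · simp
  · intro b _ hb
    rw [if_neg hb.symm, mul_zero]
  · intro h
    exact absurd (Finset.mem_range.mpr (Nat.lt_succ_of_le hn)) h

lemma line_natDegree (c : ℕ → MvPolynomial (Fin d) ℂ) (N : ℕ) (z : Fin d → ℂ) :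
    (line c N z).natDegree ≤ N := by
  apply Polynomial.natDegree_sum_le_of_forall_le
  intro n hn
  refine (Polynomial.natDegree_C_mul_X_pow_le _ _).trans ?_
  have := Finset.mem_range.mp hn
  omega

lemma line_eval {Q : MvPolynomial (Fin d) ℂ} {c : ℕ → MvPolynomial (Fin d) ℂ} {N : ℕ} {j : Fin d}
    (hc : ∀ n, j ∉ (c n).vars)
    (hQ : Q = ∑ n ∈ Finset.range (N + 1), c n * MvPolynomial.X j ^ n) (z : Fin d → ℂ) (w : ℂ) :
    (line c N z).eval w = MvPolynomial.eval (Function.update z j w) Q := by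
  rw [hQ, line, Polynomial.eval_finsetSum, map_sum]
  apply Finset.sum_congr rfl
  intro n _
  rw [map_mul, map_pow, MvPolynomial.eval_X, Function.update_self, eval_update_free (hc n)]
  simp

/-- the numerator of `N - z_i ∂_i Q / Q` -/
noncomputable def num (c : ℕ → MvPolynomial (Fin d) ℂ) (N : ℕ) (i : Fin d) :
    MvPolynomial (Fin d) ℂ :=
  ∑ n ∈ Finset.range (N + 1), MvPolynomial.C ((N : ℂ) - n) * c n * MvPolynomial.X i ^ n

lemma num_eval {c : ℕ → MvPolynomial (Fin d) ℂ} {N : ℕ} {i : Fin d}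
    (hc : ∀ n, i ∉ (c n).vars) (z : Fin d → ℂ) (w : ℂ) :
    MvPolynomial.eval (Function.update z i w) (num c N i) =
      N * (line c N z).eval w - w * (line c N z).derivative.eval w := by
  rw [num, line, map_sum, Polynomial.derivative_sum, Polynomial.eval_finsetSum,
    Polynomial.eval_finsetSum, Finset.mul_sum, Finset.mul_sum, ← Finset.sum_sub_distrib]
  apply Finset.sum_congr rfl
  intro n _
  rw [map_mul, map_mul, map_pow, MvPolynomial.eval_X, Function.update_self,
    eval_update_free (hc n), MvPolynomial.eval_C, Polynomial.derivative_C_mul_X_pow]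
  simp only [Polynomial.eval_mul, Polynomial.eval_C, Polynomial.eval_pow, Polynomial.eval_X]
  rcases Nat.eq_zero_or_pos n with rfl | hn
  · simp
  · obtain ⟨k, rfl⟩ : ∃ k, n = k + 1 := ⟨n - 1, by omega⟩
    rw [Nat.add_sub_cancel, pow_succ]
    ring

lemma coeff_free {q : MvPolynomial (Fin d) ℂ} {i : Fin d} (hi : i ∉ q.vars) (n : ℕ)
    (m : Fin d →₀ ℕ) (hm : m i ≠ n) : MvPolynomial.coeff m (q * MvPolynomial.X i ^ n) = 0 := by
  classical
  rw [MvPolynomial.X_pow_eq_monomial, MvPolynomial.coeff_mul_monomial']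
  split_ifs with h
  · rw [mul_one]
    by_contra hne
    have h1 := MvPolynomial.mem_support_notMem_vars_zero (MvPolynomial.mem_support_iff.mpr hne) hi
    rw [Finsupp.tsub_apply, Finsupp.single_eq_same] at h1
    have h2 := h i
    rw [Finsupp.single_eq_same] at h2
    omega
  · rfl

/-- the coefficients of `g * num` vanish at exponents with `m i ≥ N` -/
lemma coeff_num {c : ℕ → MvPolynomial (Fin d) ℂ} {N : ℕ} {i : Fin d}
    (hc : ∀ n, i ∉ (c n).vars) {g : MvPolynomial (Fin d) ℂ} (hg : i ∉ g.vars)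
    (m : Fin d →₀ ℕ) (hm : N ≤ m i) : MvPolynomial.coeff m (g * num c N i) = 0 := by
  classical
  rw [num, Finset.mul_sum, MvPolynomial.coeff_sum]
  apply Finset.sum_eq_zero
  intro n hn
  have hn' := Finset.mem_range.mp hn
  rcases Nat.lt_or_ge n N with h | h
  · rw [← mul_assoc]
    apply coeff_free _ n m (by omega)
    intro h1
    have h2 := MvPolynomial.vars_mul _ _ h1
    rw [Finset.mem_union] at h2
    rcases h2 with h2 | h2
    · exact hg h2
    · have h3 := MvPolynomial.vars_mul _ _ h2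
      rw [Finset.mem_union, MvPolynomial.vars_C] at h3
      rcases h3 with h3 | h3
      · exact absurd h3 (Finset.notMem_empty _)
      · exact hc n h3
  · have : n = N := by omega
    rw [this, sub_self, MvPolynomial.C_0]
    simp

lemma coeff_poly_mul (Q : MvPolynomial (Fin d) ℂ) (f : MvPowerSeries (Fin d) ℂ)
    (m : Fin d →₀ ℕ) : coeff m ((Q : MvPowerSeries (Fin d) ℂ) * f) =
      ∑ β ∈ Q.support, if β ≤ m then Q.coeff β * coeff (m - β) f else 0 := by
  classical
  conv_lhs => rw [Q.as_sum]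
  have e : ((∑ v ∈ Q.support, MvPolynomial.monomial v (Q.coeff v) : MvPolynomial (Fin d) ℂ) :
      MvPowerSeries (Fin d) ℂ) = ∑ v ∈ Q.support, MvPowerSeries.monomial v (Q.coeff v) := by
    have h := map_sum (MvPolynomial.coeToMvPowerSeries.ringHom (σ := Fin d) (R := ℂ))
      (fun v => MvPolynomial.monomial v (Q.coeff v)) Q.support
    simp only [MvPolynomial.coeToMvPowerSeries.ringHom_apply, MvPolynomial.coe_monomial] at h
    exact h
  rw [e, Finset.sum_mul, map_sum]
  apply Finset.sum_congr rfl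
  intro β _
  rw [coeff_monomial_mul]

/-- the annihilator -/
lemma annih {Q : MvPolynomial (Fin d) ℂ} (hsr : SelfReflective Q) (f : MvPowerSeries (Fin d) ℂ)
    (h0 : ∀ γ : Fin d →₀ ℕ, coeff (multideg Q + γ) ((Q : MvPowerSeries (Fin d) ℂ) * f) = 0)
    (γ : Fin d →₀ ℕ) :
    ∑ α ∈ Q.support, Q.coeff α * (starRingEnd ℂ) (coeff (α + γ) f) = 0 := by
  classical
  obtain ⟨c, hc⟩ := hsr
  have hc' : ∀ α ∈ Q.support, (starRingEnd ℂ) (Q.coeff α) = c * Q.coeff (multideg Q - α) := by
    intro α hα
    apply hc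
    exact tsub_add_cancel_of_le (le_multideg hα)
  have h1 : (starRingEnd ℂ) (∑ α ∈ Q.support, Q.coeff α * (starRingEnd ℂ) (coeff (α + γ) f)) =
      c * coeff (multideg Q + γ) ((Q : MvPowerSeries (Fin d) ℂ) * f) := by
    rw [coeff_poly_mul, map_sum, Finset.mul_sum]
    refine Finset.sum_nbij' (fun α => multideg Q - α) (fun α => multideg Q - α) ?_ ?_ ?_ ?_ ?_
    · intro α hα
      rw [MvPolynomial.mem_support_iff]
      intro h
      have h2 := hc' α hα
      rw [h, mul_zero] at h2
      rw [MvPolynomial.mem_support_iff] at hα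
      apply hα
      simpa using h2
    · intro α hα
      rw [MvPolynomial.mem_support_iff]
      intro h
      have h2 := hc' α hα
      rw [h, mul_zero] at h2
      rw [MvPolynomial.mem_support_iff] at hα
      apply hα
      simpa using h2
    · intro α hα
      exact tsub_tsub_cancel_of_le (le_multideg hα)
    · intro α hα
      exact tsub_tsub_cancel_of_le (le_multideg hα)
    · intro α hα
      have h2 : multideg Q - α ≤ multideg Q + γ := (tsub_le_self).trans le_self_add
      have h3 : multideg Q + γ - (multideg Q - α) = α + γ := by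
        have h4 := tsub_add_cancel_of_le (le_multideg hα)
        have h5 : multideg Q + γ = (α + γ) + (multideg Q - α) := by
          calc multideg Q + γ = (multideg Q - α + α) + γ := by rw [h4]
            _ = _ := by rw [add_assoc, add_comm]
        rw [h5, add_tsub_cancel_right]
      rw [if_pos h2, h3, map_mul, hc' α hα, Complex.conj_conj]
      ring
  rw [h0, mul_zero] at h1
  exact (map_eq_zero (starRingEnd ℂ)).mp h1

/-- **The negative half.** -/
theorem not_cyclic_of_selfReflective {t : ℝ} {Q : MvPolynomial (Fin d) ℂ} (hirr : Irreducible Q)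
    (hQ : ZeroFree Q) (hsr : SelfReflective Q) (ht : 1 < t * Q.vars.card) :
    ¬ ShiftCyclic t (Q : MvPowerSeries (Fin d) ℂ) := by
  classical
  have hk : 0 < Q.vars.card := by
    rcases Nat.eq_zero_or_pos Q.vars.card with h | h
    · rw [h] at ht
      norm_num at ht
    · exact h
  have hkr : (0:ℝ) < Q.vars.card := by exact_mod_cast hk
  have ht0 : 0 ≤ t := by
    by_contra h
    push Not at h
    nlinarith
  obtain ⟨i, hi⟩ := Finset.card_pos.mp hk
  have hprime : Prime Q := hirr.prime
  -- the inverse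
  have hcc : constantCoeff (Q : MvPowerSeries (Fin d) ℂ) ≠ 0 := const_ne hQ
  set u : MvPowerSeries (Fin d) ℂ := (Q : MvPowerSeries (Fin d) ℂ)⁻¹ with hu
  have huQ : u * (Q : MvPowerSeries (Fin d) ℂ) = 1 := MvPowerSeries.inv_mul_cancel _ hcc
  -- the direction `i`
  obtain ⟨c, hc, hQc⟩ := decomp Q i
  set N := Q.degreeOf i with hN
  have hNpos : 0 < N := by
    rw [MvPolynomial.mem_vars_iff_degreeOf_ne_zero] at hi
    omega
  set S := num c N i with hS
  have hlz : ∀ z : Fin d → ℂ, (∀ j, ‖z j‖ < 1) → ∀ w : ℂ, ‖w‖ < 1 → (line c N z).eval w ≠ 0 := by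
    intro z hz w hw
    rw [line_eval hc hQc]
    exact hQ _ (update_norm hz i hw)
  have hre : ∀ z : Fin d → ℂ, (∀ j, ‖z j‖ < 1) →
      0 < (MvPolynomial.eval z S / MvPolynomial.eval z Q).re := by
    intro z hz
    have h1 := re_logDeriv N (line c N z) (line_natDegree c N z) (hlz z hz) (z i) (hz i)
    rw [← num_eval hc, line_eval hc hQc, Function.update_eq_self] at h1
    have h2 : (0:ℝ) < N := by exact_mod_cast hNpos
    linarith
  have hS0 : S ≠ 0 := by
    intro h
    have h1 := hre (fun _ => 0) (by simp)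
    rw [h] at h1
    simp at h1
  -- the eliminating polynomials
  have helim : ∀ j : Fin d, ∃ (g : MvPolynomial (Fin d) ℂ) (C : ℝ), j ∈ Q.vars → j ≠ i →
      g ≠ 0 ∧ i ∉ g.vars ∧ j ∉ g.vars ∧ ∀ z : Fin d → ℂ, (∀ l, ‖z l‖ < 1) →
        ‖MvPolynomial.eval z g‖ * ‖MvPolynomial.eval (Function.update z j 0) S /
          MvPolynomial.eval (Function.update z j 0) Q‖ ≤ C := by
    intro j
    by_cases hj : j ∈ Q.vars ∧ j ≠ i
    · obtain ⟨N', c', s, h, g, hc', hQc', hbig, hg0, hig, hjg, hg⟩ :=
        elim1 Q hprime i j hj.2.symm hj.1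
      refine ⟨g, (∑ n ∈ s, n1 (h n) * 2 ^ N') * n1 S, fun _ _ => ⟨hg0, hig, hjg, fun z hz => ?_⟩⟩
      have hz1 : ∀ l, ‖z l‖ ≤ 1 := fun l => (hz l).le
      have hlz' : ∀ w : ℂ, ‖w‖ < 1 → (line c' N' z).eval w ≠ 0 := by
        intro w hw
        rw [line_eval hc' hQc']
        exact hQ _ (update_norm hz j hw)
      have hco : ∀ n, ‖MvPolynomial.eval z (c' n)‖ ≤ 2 ^ N' * ‖MvPolynomial.eval z (c' 0)‖ := by
        intro n
        rcases Nat.lt_or_ge N' n with h1 | h1
        · rw [hbig n h1, map_zero, norm_zero]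
          positivity
        · have h2 := coeff_le_of_zeroFree N' _ (line_natDegree c' N' z) hlz' n
          rwa [line_coeff _ _ _ h1, line_coeff _ _ _ (Nat.zero_le _)] at h2
      have hQ0 : MvPolynomial.eval (Function.update z j 0) Q = MvPolynomial.eval z (c' 0) := by
        rw [← line_eval hc' hQc', ← Polynomial.coeff_zero_eq_eval_zero,
          line_coeff _ _ _ (Nat.zero_le _)]
      have hc0 : MvPolynomial.eval z (c' 0) ≠ 0 := by
        rw [← hQ0]
        exact hQ _ (update_norm hz j (by simp))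
      have hc0' : 0 < ‖MvPolynomial.eval z (c' 0)‖ := norm_pos_iff.mpr hc0
      have h1 : ‖MvPolynomial.eval z g‖ ≤
          (∑ n ∈ s, n1 (h n) * 2 ^ N') * ‖MvPolynomial.eval z (c' 0)‖ := by
        rw [hg, map_sum, Finset.sum_mul]
        refine (norm_sum_le _ _).trans (Finset.sum_le_sum fun n _ => ?_)
        rw [map_mul, norm_mul, mul_assoc]
        exact mul_le_mul (eval_le_n1 _ z hz1) (hco n) (norm_nonneg _) (n1_nonneg _)
      have h2 : ‖MvPolynomial.eval (Function.update z j 0) S‖ ≤ n1 S :=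
        eval_le_n1 _ _ fun l => (update_norm hz j (by simp) l).le
      rw [hQ0, norm_div, ← mul_div_assoc, div_le_iff₀ hc0']
      calc ‖MvPolynomial.eval z g‖ * ‖MvPolynomial.eval (Function.update z j 0) S‖
          ≤ ((∑ n ∈ s, n1 (h n) * 2 ^ N') * ‖MvPolynomial.eval z (c' 0)‖) * n1 S := by
            apply mul_le_mul h1 h2 (norm_nonneg _)
            have : 0 ≤ ∑ n ∈ s, n1 (h n) * (2:ℝ) ^ N' :=
              Finset.sum_nonneg fun n _ => mul_nonneg (n1_nonneg _) (by positivity)
            positivity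
        _ = _ := by ring
    · exact ⟨0, 0, fun h1 h2 => absurd ⟨h1, h2⟩ hj⟩
  choose g C hg using helim
  set G := ∏ j ∈ Q.vars.erase i, g j with hG
  have hgood : ∀ j ∈ Q.vars.erase i, g j ≠ 0 ∧ i ∉ (g j).vars ∧ j ∉ (g j).vars ∧
      ∀ z : Fin d → ℂ, (∀ l, ‖z l‖ < 1) →
        ‖MvPolynomial.eval z (g j)‖ * ‖MvPolynomial.eval (Function.update z j 0) S /
          MvPolynomial.eval (Function.update z j 0) Q‖ ≤ C j := fun j hj =>
    hg j (Finset.mem_of_mem_erase hj) (Finset.ne_of_mem_erase hj)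
  have hG0 : G ≠ 0 := Finset.prod_ne_zero_iff.mpr fun j hj => (hgood j hj).1
  have hGi : i ∉ G.vars := by
    intro h
    have h1 := MvPolynomial.vars_prod _ h
    rw [Finset.mem_biUnion] at h1
    obtain ⟨j, hj, h2⟩ := h1
    exact (hgood j hj).2.1 h2
  set R := G * S with hR
  have hR0 : R ≠ 0 := mul_ne_zero hG0 hS0
  set f : MvPowerSeries (Fin d) ℂ := (R : MvPowerSeries (Fin d) ℂ) * u with hf
  have hQf : (Q : MvPowerSeries (Fin d) ℂ) * f = (R : MvPowerSeries (Fin d) ℂ) := by
    rw [hf]
    calc (Q : MvPowerSeries (Fin d) ℂ) * ((R : MvPowerSeries (Fin d) ℂ) * u) =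
        (R : MvPowerSeries (Fin d) ℂ) * (u * (Q : MvPowerSeries (Fin d) ℂ)) := by ring
      _ = _ := by rw [huQ, mul_one]
  have hf0 : f ≠ 0 := by
    intro h
    rw [h, mul_zero] at hQf
    apply hR0
    apply MvPolynomial.coe_injective
    rw [← hQf, MvPolynomial.coe_zero]
  obtain ⟨α0, hα0⟩ : ∃ α, coeff α f ≠ 0 := by
    by_contra h
    push Not at h
    exact hf0 (MvPowerSeries.ext fun α => by rw [h, map_zero])
  -- the annihilator
  have hann := annih hsr f (fun γ => by
    rw [hQf, MvPolynomial.coeff_coe, hR]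
    apply coeff_num hc hGi
    rw [Finsupp.add_apply, multideg_apply]
    omega)
  -- bounds in the directions
  have habs : ∀ z : Fin d → ℂ, (∀ j, ‖z j‖ < 1) → AbsAt z f := fun z hz =>
    (poly_mul z _ u (absAt_inv hQ u huQ z hz)).1
  have hdir : ∀ j ∈ Q.vars, ∃ B : ℝ, ∀ (m : ℕ) (z : Fin d → ℂ), (∀ l, ‖z l‖ < 1) →
      ‖Phi j m z f‖ ≤ B := by
    intro j hj
    by_cases hji : j = i
    · subst hji
      refine ⟨n1 G * (2 * N), fun m z hz => ?_⟩
      have h1 := dir_bound (Q := Q) (S := S) (e := 1) (G := G) u huQ hQ hre j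
        (by rw [MvPolynomial.vars_one]; exact Finset.notMem_empty _) N (fun z hz => ?_) m z hz
      · rw [mul_one] at h1
        exact h1
      · rw [map_one, norm_one, one_mul]
        have h2 : MvPolynomial.eval (Function.update z j 0) S =
            N * MvPolynomial.eval (Function.update z j 0) Q := by
          rw [hS, num_eval hc, ← line_eval hc hQc, zero_mul, sub_zero]
        have h3 := hQ _ (update_norm hz j (w := 0) (by simp))
        rw [h2, mul_div_assoc, div_self h3, mul_one]
        simp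
    · have hj' : j ∈ Q.vars.erase i := Finset.mem_erase.mpr ⟨hji, hj⟩
      refine ⟨n1 (∏ l ∈ (Q.vars.erase i).erase j, g l) * (2 * C j), fun m z hz => ?_⟩
      have h1 := dir_bound (Q := Q) (S := S) (e := g j)
        (G := ∏ l ∈ (Q.vars.erase i).erase j, g l) u huQ hQ hre j (hgood j hj').2.2.1 (C j)
        (hgood j hj').2.2.2 m z hz
      have e : (∏ l ∈ (Q.vars.erase i).erase j, g l) * g j = G := by
        rw [hG, Finset.prod_erase_mul _ _ hj']
      rw [e] at h1
      exact h1
  choose! B hB using hdir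
  set BB := 1 + ∑ j ∈ Q.vars, |B j| with hBB
  have hBB0 : 0 < BB := by
    have : 0 ≤ ∑ j ∈ Q.vars, |B j| := Finset.sum_nonneg fun _ _ => abs_nonneg _
    linarith
  have hsumb : ∀ j ∈ Q.vars, ∀ (m : ℕ) (s : Finset (Fin d →₀ ℕ)),
      ∑ α ∈ s.filter (fun α => α j = m), ‖coeff α f‖ ^ 2 ≤ BB ^ 2 := by
    intro j hj m s
    have hb : ∀ z : Fin d → ℂ, (∀ l, ‖z l‖ < 1) → ‖Phi j m z f‖ ≤ BB := by
      intro z hz
      refine (hB j hj m z hz).trans ((le_abs_self _).trans ?_)
      have := Finset.single_le_sum (f := fun j => |B j|) (fun _ _ => abs_nonneg _) hj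
      linarith
    set M := (s.sup fun α => ∑ l, α l) + 1 with hM
    refine le_trans ?_ (dir_sum habs j m BB hBB0 hb M)
    rw [← Finset.sum_biUnion]
    · rw [Finset.sum_filter]
      have e : ∀ α : Fin d →₀ ℕ, (if α j = m then ‖coeff α f‖ ^ 2 else 0) =
          ‖(if α j = m then coeff α f else 0 : ℂ)‖ ^ 2 := by
        intro α
        split_ifs <;> simp
      simp only [e]
      apply Finset.sum_le_sum_of_subset_of_nonneg
      · intro α hα
        rw [Finset.mem_biUnion]
        refine ⟨∑ l, α l, ?_, mem_fa.mpr rfl⟩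
        rw [Finset.mem_range, hM]
        have := Finset.le_sup (f := fun α : Fin d →₀ ℕ => ∑ l, α l) hα
        omega
      · intro _ _ _
        positivity
    · intro a _ b _ hab
      simp only [Function.onFun]
      rw [Finset.disjoint_left]
      intro p hp hq
      rw [mem_fa] at hp hq
      exact hab (hp.symm.trans hq)
  obtain ⟨A, hA⟩ := dual_sum ht0 Q.vars ⟨i, hi⟩ ht (fun α => coeff α f) (BB ^ 2) hsumb
  exact not_cyclic (fun α => coeff α f) A hA hann α0 hα0

end Pool.Agent.K1H23.SR
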