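import Pool.Agent.H650R3.Cyc.NoZero

set_option autoImplicit false

/-! Polynomials in one variable without zeros in the open disc. -/

namespace Pool.Agent.K1H23.SR
open Polynomial Pool.Agent.H650R3.Cyc

lemma list_coeff (l : List ℂ) (hl : ∀ u ∈ l, ‖u‖ ≤ 1) (n : ℕ) :
    ‖((l.map fun u => 1 - Polynomial.C u * Polynomial.X).prod : Polynomial ℂ).coeff n‖ ≤
      2 ^ l.length := by
  induction l generalizing n with
  | nil =>
    simp only [List.map_nil, List.prod_nil, List.length_nil, pow_zero]
    rw [Polynomial.coeff_one]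
    split_ifs <;> simp
  | cons u l ih =>
    have hu := hl u (by simp)
    have hl' : ∀ v ∈ l, ‖v‖ ≤ 1 := fun v hv => hl v (by simp [hv])
    rw [List.map_cons, List.prod_cons, List.length_cons, pow_succ]
    set q := ((l.map fun u => 1 - Polynomial.C u * Polynomial.X).prod : Polynomial ℂ) with hq
    have e : (1 - Polynomial.C u * Polynomial.X) * q = q - Polynomial.C u * (Polynomial.X * q) := by
      ring
    rw [e, Polynomial.coeff_sub, Polynomial.coeff_C_mul]
    have h1 : ‖(Polynomial.X * q).coeff n‖ ≤ 2 ^ l.length := by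
      cases n with
      | zero => simp
      | succ n =>
        rw [Polynomial.coeff_X_mul]
        exact ih hl' n
    have h2 := ih hl' n
    generalize q.coeff n = a at h2 ⊢
    generalize (Polynomial.X * q).coeff n = b at h1 ⊢
    have h3 := norm_sub_le a (u * b)
    rw [norm_mul] at h3
    have h4 : ‖u‖ * ‖b‖ ≤ 1 * 2 ^ l.length :=
      mul_le_mul hu h1 (norm_nonneg _) zero_le_one
    linarith

/-- the coefficients are dominated by the constant term -/
lemma coeff_le_of_zeroFree (N : ℕ) (p : Polynomial ℂ) (hp : p.natDegree ≤ N)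
    (hz : ∀ z : ℂ, ‖z‖ < 1 → p.eval z ≠ 0) (n : ℕ) : ‖p.coeff n‖ ≤ 2 ^ N * ‖p.coeff 0‖ := by
  obtain ⟨l, hlen, hl, e⟩ := factor N p hp hz
  rw [e, Polynomial.coeff_C_mul, norm_mul, ← e, mul_comm]
  apply mul_le_mul_of_nonneg_right _ (norm_nonneg _)
  exact (list_coeff l hl n).trans (pow_le_pow_right₀ one_le_two hlen)

lemma re_inv_ge (x : ℂ) (hx : ‖x‖ < 1) : 1 / 2 ≤ (1 / (1 - x)).re := by
  have h1 : (1 - x) ≠ 0 := by
    intro h
    have : x = 1 := by linear_combination -h
    rw [this, norm_one] at hx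
    exact lt_irrefl _ hx
  have h2 : 0 < Complex.normSq (1 - x) := Complex.normSq_pos.mpr h1
  have h5 : (1 / (1 - x)).re = (1 - x).re / Complex.normSq (1 - x) := by
    rw [one_div, Complex.inv_re]
  rw [h5, le_div_iff₀ h2]
  have h3 : Complex.normSq (1 - x) = (1 - x.re) ^ 2 + x.im ^ 2 := by
    rw [Complex.normSq_apply]
    simp
    ring
  have h4 : x.re ^ 2 + x.im ^ 2 < 1 := by
    have := Complex.sq_norm x
    rw [Complex.normSq_apply] at this
    nlinarith [norm_nonneg x]
  rw [h3, Complex.sub_re, Complex.one_re]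
  nlinarith

lemma list_re (l : List ℂ) (hl : ∀ u ∈ l, ‖u‖ ≤ 1) (w : ℂ) (hw : ‖w‖ < 1) :
    ((l.map fun u => 1 - Polynomial.C u * Polynomial.X).prod : Polynomial ℂ).eval w ≠ 0 ∧
    (w * ((l.map fun u => 1 - Polynomial.C u * Polynomial.X).prod : Polynomial ℂ).derivative.eval w /
      ((l.map fun u => 1 - Polynomial.C u * Polynomial.X).prod : Polynomial ℂ).eval w).re ≤
      l.length / 2 := by
  induction l with
  | nil => simp
  | cons u l ih =>
    have hu := hl u (by simp)
    have hl' : ∀ v ∈ l, ‖v‖ ≤ 1 := fun v hv => hl v (by simp [hv])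
    obtain ⟨h1, h2⟩ := ih hl'
    rw [List.map_cons, List.prod_cons, List.length_cons]
    set q := ((l.map fun u => 1 - Polynomial.C u * Polynomial.X).prod : Polynomial ℂ) with hq
    have hx : ‖u * w‖ < 1 := by
      rw [norm_mul]
      calc ‖u‖ * ‖w‖ ≤ 1 * ‖w‖ := by gcongr
        _ < 1 := by linarith
    have h3 : (1 - u * w) ≠ 0 := by
      intro h
      have : u * w = 1 := by linear_combination -h
      rw [this, norm_one] at hx
      exact lt_irrefl _ hx
    have h4 := re_inv_ge (u * w) hx
    have e1 : ((1 - Polynomial.C u * Polynomial.X) * q).eval w = (1 - u * w) * q.eval w := by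
      simp
    have e2 : ((1 - Polynomial.C u * Polynomial.X) * q).derivative.eval w =
        -u * q.eval w + (1 - u * w) * q.derivative.eval w := by
      rw [Polynomial.derivative_mul]
      simp
    rw [e1, e2]
    refine ⟨mul_ne_zero h3 h1, ?_⟩
    have e3 : w * (-u * q.eval w + (1 - u * w) * q.derivative.eval w) / ((1 - u * w) * q.eval w) =
        1 - 1 / (1 - u * w) + w * q.derivative.eval w / q.eval w := by
      have h3' : 1 - w * u ≠ 0 := by rwa [mul_comm w u]
      field_simp
      ring
    rw [e3, Complex.add_re, Complex.sub_re, Complex.one_re]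
    push_cast
    linarith

/-- the real part of `N - w p'(w) / p(w)` is at least `N / 2` -/
lemma re_logDeriv (N : ℕ) (p : Polynomial ℂ) (hp : p.natDegree ≤ N)
    (hz : ∀ z : ℂ, ‖z‖ < 1 → p.eval z ≠ 0) (w : ℂ) (hw : ‖w‖ < 1) :
    (N : ℝ) / 2 ≤ ((N * p.eval w - w * p.derivative.eval w) / p.eval w).re := by
  obtain ⟨l, hlen, hl, e⟩ := factor N p hp hz
  obtain ⟨h1, h2⟩ := list_re l hl w hw
  set q := ((l.map fun u => 1 - Polynomial.C u * Polynomial.X).prod : Polynomial ℂ) with hq
  have hc : p.coeff 0 ≠ 0 := by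
    intro h
    have := hz w hw
    rw [e, h] at this
    simp at this
  have e1 : p.eval w = p.coeff 0 * q.eval w := by
    conv_lhs => rw [e]
    simp
  have e2 : p.derivative.eval w = p.coeff 0 * q.derivative.eval w := by
    conv_lhs => rw [e]
    simp
  have e3 : ((N : ℂ) * p.eval w - w * p.derivative.eval w) / p.eval w =
      N - w * q.derivative.eval w / q.eval w := by
    rw [e1, e2]
    field_simp
  rw [e3, Complex.sub_re, Complex.natCast_re]
  have : (l.length : ℝ) ≤ N := by exact_mod_cast hlen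
  linarith

end Pool.Agent.K1H23.SR
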