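import Pool.Agent.K1H23.SR.Neg

set_option autoImplicit false

/-! Cyclicity of a polynomial in terms of its irreducible factors. -/

namespace Pool.Agent.K1H23.SR
open Finset MvPowerSeries Pool.Agent.H650R3.Cyc

variable {d : ℕ}

/-- factors of cyclic polynomials are cyclic -/
lemma cyclic_of_dvd {t : ℝ} {P Q : MvPolynomial (Fin d) ℂ} (hQP : Q ∣ P)
    (h : ShiftCyclic t (P : MvPowerSeries (Fin d) ℂ)) :
    ShiftCyclic t (Q : MvPowerSeries (Fin d) ℂ) := by
  obtain ⟨R, rfl⟩ := hQP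
  apply cyclic_of_approx
  intro ε hε
  obtain ⟨p, hp1, hp2⟩ := h.2 1 (mem_one t) ε hε
  refine ⟨p * R, ?_⟩
  have e : ((p * R : MvPolynomial (Fin d) ℂ) : MvPowerSeries (Fin d) ℂ) *
      (Q : MvPowerSeries (Fin d) ℂ) = (p : MvPowerSeries (Fin d) ℂ) *
        ((Q * R : MvPolynomial (Fin d) ℂ) : MvPowerSeries (Fin d) ℂ) := by
    rw [MvPolynomial.coe_mul, MvPolynomial.coe_mul]
    ring
  rw [e]
  exact ⟨hp1, hp2⟩

lemma approx_unit (t : ℝ) {P : MvPolynomial (Fin d) ℂ} (hP : IsUnit P) : Approx t P 1 := by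
  obtain ⟨u, rfl⟩ := hP
  intro ε hε
  refine ⟨(u⁻¹ : (MvPolynomial (Fin d) ℂ)ˣ), ?_⟩
  have e : (((u⁻¹ : (MvPolynomial (Fin d) ℂ)ˣ) : MvPolynomial (Fin d) ℂ) :
      MvPowerSeries (Fin d) ℂ) * (((u : MvPolynomial (Fin d) ℂ)) : MvPowerSeries (Fin d) ℂ) - 1
      = 0 := by
    rw [← MvPolynomial.coe_mul, Units.inv_mul, MvPolynomial.coe_one, sub_self]
  rw [e]
  constructor
  · unfold MemD
    simp only [map_zero, norm_zero]
    simp [summable_zero]
  · unfold normSq
    simpa using hε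

theorem approx_of_factors {t : ℝ} (P : MvPolynomial (Fin d) ℂ) (hP : P ≠ 0)
    (h : ∀ Q : MvPolynomial (Fin d) ℂ, Irreducible Q → Q ∣ P → Approx t Q 1) : Approx t P 1 := by
  induction P using WfDvdMonoid.induction_on_irreducible with
  | zero => exact absurd rfl hP
  | unit u hu => exact approx_unit t hu
  | mul a i ha hi ih =>
    apply approx_mul (h i hi (dvd_mul_right i a))
    exact ih ha fun Q hQ hd => h Q hQ (hd.mul_left i)

lemma vars_pos {Q : MvPolynomial (Fin d) ℂ} (hQ : Irreducible Q) : 1 ≤ Q.vars.card := by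
  by_contra h
  have h0 : Q.vars.card = 0 := by omega
  rw [Finset.card_eq_zero] at h0
  have h1 : Q = MvPolynomial.C (Q.coeff 0) := by
    rw [← MvPolynomial.totalDegree_eq_zero_iff_eq_C]
    rw [MvPolynomial.totalDegree_eq_zero_iff]
    intro m hm j
    by_contra hne
    have : j ∈ Q.vars := by
      rw [MvPolynomial.mem_vars_iff_mem_support]
      exact ⟨m, hm, Finsupp.mem_support_iff.mpr hne⟩
    rw [h0] at this
    exact absurd this (Finset.notMem_empty _)
  apply hQ.not_isUnit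
  rw [h1]
  apply IsUnit.map
  rw [isUnit_iff_ne_zero]
  intro h2
  rw [h2, MvPolynomial.C_0] at h1
  exact hQ.ne_zero h1

end Pool.Agent.K1H23.SR
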